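import Pool.Agent.helper19.AR.Defs2

/-!
# Aharoni's rainbow cycle conjecture for large `n` (MP_962e14_co): basic lemmas
-/

namespace Pool.Agent.helper19.AR

theorem mem_col {α β : Type} (S : Sys α β) (A : Finset α) (a : β) :
    a ∈ col S A ↔ a ∈ S.C ∧ ∃ e ∈ S.E a, ∀ x ∈ e, x ∈ A := by
  classical
  unfold col
  rw [Finset.mem_filter]

theorem col_sub {α β : Type} (S : Sys α β) (A : Finset α) : col S A ⊆ S.C := by
  intro a ha
  exact ((mem_col S A a).mp ha).1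

theorem col_mono {α β : Type} (S : Sys α β) {A B : Finset α} (h : A ⊆ B) : col S A ⊆ col S B := by
  intro a ha
  rw [mem_col] at ha ⊢
  obtain ⟨h1, e, he, hx⟩ := ha
  exact ⟨h1, e, he, fun x hxe => h (hx x hxe)⟩

/-- a class with at least two edges has at most one centre -/
theorem star_unique {α β : Type} (S : Sys α β) (a : β) (h2 : 2 ≤ (S.E a).card) (v w : α)
    (hv : IsStar S v a) (hw : IsStar S w a) : v = w := by
  classical
  by_contra hne
  have h1 : (S.E a) ⊆ {s(v, w)} := by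
    intro e he
    rw [Finset.mem_singleton]
    exact (Sym2.mem_and_mem_iff hne).mp ⟨hv e he, hw e he⟩
  have := Finset.card_le_card h1
  rw [Finset.card_singleton] at this
  omega

theorem mem_segm {α : Type} [DecidableEq α] (r : ℕ) (v : ℕ → ℕ → α) (j q : ℕ) (x : α) :
    x ∈ segm r v j q ↔ ∃ j' i, j ≤ j' ∧ j' < q ∧ i < r ∧ x = v j' i := by
  unfold segm
  simp only [Finset.mem_image, Finset.mem_product, Finset.mem_Ico, Finset.mem_range, Prod.exists]
  constructor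
  · rintro ⟨a, b, ⟨⟨h1, h2⟩, h3⟩, rfl⟩
    exact ⟨a, b, h1, h2, h3, rfl⟩
  · rintro ⟨a, b, h1, h2, h3, rfl⟩
    exact ⟨a, b, ⟨⟨h1, h2⟩, h3⟩, rfl⟩

theorem mem_PN {α : Type} (r : ℕ) (v : ℕ → ℕ → α) (j i : ℕ) (x : α) :
    x ∈ PN r v j i ↔ (∃ i', i < i' ∧ i' < r ∧ x = v j i') ∨ (∃ i', i' ≤ i ∧ x = v (j + 1) i') := by
  classical
  unfold PN
  simp only [Finset.mem_union, Finset.mem_image, Finset.mem_Ioo, Finset.mem_range]
  constructor
  · rintro (⟨a, ⟨h1, h2⟩, rfl⟩ | ⟨a, h1, rfl⟩)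
    · exact Or.inl ⟨a, h1, h2, rfl⟩
    · exact Or.inr ⟨a, by omega, rfl⟩
  · rintro (⟨a, h1, h2, rfl⟩ | ⟨a, h1, rfl⟩)
    · exact Or.inl ⟨a, ⟨h1, h2⟩, rfl⟩
    · exact Or.inr ⟨a, by omega, rfl⟩

theorem mem_reach {α : Type} (V Z : Finset α) (out : α → Finset α) (x w : α) :
    w ∈ reach V Z out x ↔ w ∈ V ∧ w ∉ Z ∧ Relation.ReflTransGen (Stp V Z out) x w := by
  classical
  unfold reach
  rw [Finset.mem_filter]

end Pool.Agent.helper19.AR
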