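import Pool.Agent.helper52.AR.ZS

/-! # AR (MP_962e14_co): module ZS with an explicit threshold -/

namespace Pool.Agent.helper19.AR

open Classical in
/-- module ZS, explicit -/
theorem ZSe (r T : ℕ) (hr : 2 ≤ r) (hT : 1 ≤ T) : ∀ (α β : Type) [DecidableEq α]
    [DecidableEq β] (S : Sys α β) (ℓ : ℕ), Good r S → Sparse S ℓ → S.V.card ≤ r * ℓ →
    576 * r ^ 2 * T * (16 * T + 1) + 6 * r + 1 ≤ S.V.card →
    T * (S.V.filter fun v => ¬ ∃ a ∈ S.C, IsStar S v a).card ≤ S.V.card := by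
  intro α β _ _ S ℓ hG hS hrl hn
  by_contra hcon
  rw [not_le] at hcon
  set n := S.V.card with hndef
  set Z := S.V.filter fun v => ¬ ∃ a ∈ S.C, IsStar S v a with hZ
  have hn1 : 0 < n := by omega
  obtain ⟨x0, hx0⟩ := Finset.card_pos.1 hn1
  have : Nonempty α := ⟨x0⟩
  -- bad pairs
  choose Bf hB1 hB2 hB3 using fun (a : {a // a ∈ S.C}) => BP r hr S hG a.1 a.2
  have hBcard : (S.C.attach.biUnion Bf).card ≤ 4 * T * Z.card := by
    calc (S.C.attach.biUnion Bf).card ≤ ∑ a ∈ S.C.attach, (Bf a).card := Finset.card_biUnion_le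
      _ ≤ ∑ a ∈ S.C.attach, 4 := Finset.sum_le_sum fun a _ => hB1 a
      _ = 4 * n := by rw [Finset.sum_const, Finset.card_attach, hG.1, smul_eq_mul, mul_comm]
      _ ≤ 4 * (T * Z.card) := by omega
      _ = 4 * T * Z.card := by ring
  obtain ⟨W, hWZ, hWcard, hW⟩ := IND Z (S.C.attach.biUnion Bf) T hBcard
  have hWV : W ⊆ S.V := hWZ.trans (Finset.filter_subset _ _)
  have hedge : ∀ a : β, ∃ x y, a ∈ S.C → (s(x, y) ∈ S.E a ∧ x ∉ W ∧ y ∉ W) := by
    intro a
    by_cases ha : a ∈ S.C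
    · obtain ⟨e, he, hW'⟩ := hB3 ⟨a, ha⟩ W (by
        intro v hv
        have := hWZ hv
        rw [hZ, Finset.mem_filter] at this
        exact this.2) (by
        intro b hb
        refine hW b ?_ (hB2 ⟨a, ha⟩ b hb)
        exact Finset.mem_biUnion.2 ⟨⟨a, ha⟩, Finset.mem_attach _ _, hb⟩)
      induction e using Sym2.ind with
      | _ x y =>
        exact ⟨x, y, fun _ => ⟨he, hW' x (Sym2.mem_mk_left _ _), hW' y (Sym2.mem_mk_right _ _)⟩⟩
    · exact ⟨x0, x0, fun h => absurd h ha⟩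
  choose p q hpq using hedge
  set s := n / (3 * r) with hs
  have hr0 : 0 < 3 * r := by omega
  have h3rs : 3 * r * s ≤ n := Nat.mul_div_le _ _
  have h6rs : n ≤ 6 * r * s := by
    have h1 : n < 3 * r * (s + 1) := Nat.lt_mul_div_succ _ hr0
    have h2 : 3 * r * (s + 1) = 3 * r * s + 3 * r := by ring
    have h3 : 6 * r * s = 3 * r * s + 3 * r * s := by ring
    omega
  have hs1 : 1 ≤ s := by
    rcases Nat.eq_zero_or_pos s with h | h
    · rw [h, mul_zero] at h6rs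
      omega
    · exact h
  have h3s : 3 * s ≤ ℓ := by
    have h1 : r * (3 * s) ≤ r * ℓ := by
      calc r * (3 * s) = 3 * r * s := by ring
        _ ≤ n := h3rs
        _ ≤ r * ℓ := hrl
    exact Nat.le_of_mul_le_mul_left h1 (by omega)
  have hEX := EX (S.V \ W) S.C p q s hs1 (by
    intro a ha
    obtain ⟨h1, h2, h3⟩ := hpq a ha
    obtain ⟨hd, hm⟩ := (hG.2 a ha).2 _ h1
    refine ⟨Finset.mem_sdiff.2 ⟨hm _ (Sym2.mem_mk_left _ _), h2⟩,
      Finset.mem_sdiff.2 ⟨hm _ (Sym2.mem_mk_right _ _), h3⟩, ?_⟩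
    intro h
    exact hd (Sym2.mk_isDiag_iff.2 h)) (by
    intro A hA hAne hAcard
    refine lt_of_le_of_lt ?_ (hS A (hA.trans Finset.sdiff_subset) hAne (hAcard.trans h3s))
    apply Finset.card_le_card
    intro a ha
    rw [Finset.mem_filter] at ha
    unfold col
    rw [Finset.mem_filter]
    refine ⟨ha.1, s(p a, q a), (hpq a ha.1).1, ?_⟩
    intro x hx
    rcases Sym2.mem_iff.1 hx with rfl | rfl
    · exact ha.2.1
    · exact ha.2.2)
  rw [hG.1, Finset.card_sdiff_of_subset hWV, ← hndef] at hEX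
  have hWn : W.card ≤ n := Finset.card_le_card hWV
  obtain ⟨k, hk⟩ : ∃ k, n = W.card + k := ⟨n - W.card, by omega⟩
  have hk' : n - W.card = k := by omega
  rw [hk'] at hEX
  have hkn : k ≤ n := by omega
  -- `|W| s^2 ≤ 8 n^2 ≤ 288 r^2 s^2`
  have h4 : W.card * s ^ 2 ≤ 288 * r ^ 2 * s ^ 2 := by
    have h5 : W.card * s ^ 2 ≤ 8 * k ^ 2 := by
      have h6 : n * s ^ 2 = W.card * s ^ 2 + k * s ^ 2 := by rw [hk]; ring
      omega
    have h7 : k ^ 2 ≤ (6 * r * s) ^ 2 := Nat.pow_le_pow_left (hkn.trans h6rs) 2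
    calc W.card * s ^ 2 ≤ 8 * k ^ 2 := h5
      _ ≤ 8 * (6 * r * s) ^ 2 := Nat.mul_le_mul_left _ h7
      _ = 288 * r ^ 2 * s ^ 2 := by ring
  have h8 : W.card ≤ 288 * r ^ 2 :=
    Nat.le_of_mul_le_mul_right h4 (Nat.pow_pos (by omega))
  have h9 : n < 576 * r ^ 2 * T * (16 * T + 1) + 1 := by
    calc n < T * Z.card + 1 := by omega
      _ ≤ T * (2 * (16 * T + 1) * W.card) + 1 :=
          Nat.add_le_add_right (Nat.mul_le_mul_left _ hWcard) 1
      _ ≤ T * (2 * (16 * T + 1) * (288 * r ^ 2)) + 1 :=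
          Nat.add_le_add_right (Nat.mul_le_mul_left _ (Nat.mul_le_mul_left _ h8)) 1
      _ = 576 * r ^ 2 * T * (16 * T + 1) + 1 := by ring
  omega

end Pool.Agent.helper19.AR
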