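import Pool.Agent.helper63.AR.CO
import Pool.Agent.helper19.AR.ZSe

/-! # AR (MP_962e14_co): module CO with an explicit threshold -/

namespace Pool.Agent.helper19.AR

/-- the threshold of module CO -/
def coN (r T : ℕ) : ℕ :=
  576 * r ^ 2 * (2 * T) * (16 * (2 * T) + 1) + 6 * r + 1 + 50 * T * r ^ 2 + 3 * r + 1

/-- module CO, explicit -/
theorem COe (r T : ℕ) (hr : 2 ≤ r) (hT : 1 ≤ T) : ∀ (α β : Type) [DecidableEq α]
    [DecidableEq β] (S : Sys α β) (ℓ : ℕ), Good r S → Sparse S ℓ → S.V.card ≤ r * ℓ →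
    coN r T ≤ S.V.card →
    ∃ (Z : Finset α) (R : Finset β) (st : α → β) (out : α → Finset α) (rk : α → ℕ),
      Core r S Z R st out rk ∧ T * Z.card ≤ S.V.card := by
  classical
  have hZS := ZSe r (2 * T) hr (by omega)
  unfold coN
  set n1 : ℕ := 576 * r ^ 2 * (2 * T) * (16 * (2 * T) + 1) + 6 * r + 1 with hn1
  intro α β _ _ S ℓ hG hS hn hn0
  have hZ1 := hZS α β S ℓ hG hS hn (by omega)
  have hℓ3 : 3 ≤ ℓ := by
    by_contra hcon
    have h1 : r * ℓ ≤ r * 2 := Nat.mul_le_mul_left _ (by omega)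
    omega
  set Z1 : Finset α := S.V.filter fun v => ¬ ∃ a ∈ S.C, IsStar S v a with hZ1def
  set P : Finset α := S.V.filter fun v => ∃ a ∈ S.C, IsStar S v a with hPdef
  have hVpos : 0 < S.V.card := by omega
  have hCne : S.C.Nonempty := by
    rw [← Finset.card_pos, hG.1]
    exact hVpos
  obtain ⟨a0, ha0⟩ := hCne
  have hE2 : ∀ a ∈ S.C, 2 ≤ (S.E a).card := fun a ha => by
    rw [(hG.2 a ha).1]
    exact hr
  -- the stars
  obtain ⟨st, hst⟩ : ∃ st : α → β, ∀ v ∈ P, st v ∈ S.C ∧ IsStar S v (st v) := by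
    refine ⟨fun v => if h : ∃ a ∈ S.C, IsStar S v a then h.choose else a0, ?_⟩
    intro v hv
    have h : ∃ a ∈ S.C, IsStar S v a := (Finset.mem_filter.mp hv).2
    simp only [dif_pos h]
    exact h.choose_spec
  have hstinj : ∀ v ∈ P, ∀ w ∈ P, st v = st w → v = w := by
    intro v hv w hw h
    have h1 := (hst v hv).2
    have h2 := (hst w hw).2
    rw [← h] at h2
    exact star_unique S (st v) (hE2 _ (hst v hv).1) v w h1 h2
  set out : α → Finset α := fun v => S.V.filter fun w => s(v, w) ∈ S.E (st v) with hout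
  have hmem_out : ∀ v w, w ∈ out v ↔ w ∈ S.V ∧ s(v, w) ∈ S.E (st v) := by
    intro v w
    rw [hout]
    exact Finset.mem_filter
  have houtE : ∀ v ∈ P, ∀ e, e ∈ S.E (st v) ↔ ∃ w ∈ out v, e = s(v, w) := by
    intro v hv e
    constructor
    · intro he
      have hve := (hst v hv).2 e he
      obtain ⟨w, rfl⟩ := Sym2.mem_iff_exists.mp hve
      refine ⟨w, ?_, rfl⟩
      rw [hmem_out]
      exact ⟨((hG.2 _ (hst v hv).1).2 _ he).2 w (Sym2.mem_mk_right v w), he⟩
    · rintro ⟨w, hw, rfl⟩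
      exact ((hmem_out v w).mp hw).2
  have houtcard : ∀ v ∈ P, (out v).card = r := by
    intro v hv
    have h1 : (out v).image (fun w => s(v, w)) = S.E (st v) := by
      ext e
      rw [houtE v hv e, Finset.mem_image]
      constructor
      · rintro ⟨w, hw, rfl⟩
        exact ⟨w, hw, rfl⟩
      · rintro ⟨w, hw, rfl⟩
        exact ⟨w, hw, rfl⟩
    have h2 : ((out v).image (fun w => s(v, w))).card = (out v).card := by
      apply Finset.card_image_of_injective
      intro w w' h
      exact Sym2.congr_right.mp h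
    rw [← h2, h1, (hG.2 _ (hst v hv).1).1]
  have hc : ∀ A ⊆ P, A.Nonempty → (∀ v ∈ A, ∃ w ∈ out v, w ∈ A) → ℓ < A.card := by
    intro A hAP hAne hA
    by_contra hcon
    have h1 := hS A (fun v hv => (Finset.mem_filter.mp (hAP hv)).1) hAne (by omega)
    have h2 : A.image st ⊆ col S A := by
      intro a ha
      obtain ⟨v, hv, rfl⟩ := Finset.mem_image.mp ha
      rw [mem_col]
      obtain ⟨w, hw, hwA⟩ := hA v hv
      refine ⟨(hst v (hAP hv)).1, s(v, w), ((hmem_out v w).mp hw).2, ?_⟩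
      intro x hx
      rw [Sym2.mem_iff] at hx
      rcases hx with rfl | rfl
      · exact hv
      · exact hwA
    have h3 : (A.image st).card = A.card := by
      apply Finset.card_image_of_injOn
      intro v hv w hw h
      exact hstinj v (hAP (Finset.mem_coe.mp hv)) w (hAP (Finset.mem_coe.mp hw)) h
    have h4 := Finset.card_le_card h2
    omega
  have hPn : P.card ≤ S.V.card := Finset.card_filter_le _ _
  have hq1 : 1 ≤ ℓ / 3 := by omega
  obtain ⟨F, rk0, hFP, hFc, hrk0⟩ := FVS out P ℓ (ℓ / 3) (P.card / (ℓ / 3)) hq1 (by omega)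
    (Nat.lt_mul_div_succ _ (by omega)) hc
  have hZ1' : 2 * T * Z1.card ≤ S.V.card := hZ1
  have hnum := CO_num r T S.V.card ℓ Z1.card F.card P.card (ℓ / 3) (P.card / (ℓ / 3)) hT rfl rfl
    hℓ3 hPn hn hZ1' hFc (by omega)
  set Z : Finset α := Z1 ∪ F with hZdef
  have hZcard : Z.card ≤ Z1.card + F.card := Finset.card_union_le _ _
  have hZsub : Z ⊆ S.V := by
    intro v hv
    rw [hZdef, Finset.mem_union] at hv
    rcases hv with hv | hv
    · exact (Finset.mem_filter.mp hv).1
    · exact (Finset.mem_filter.mp (hFP hv)).1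
  have hnZ : ∀ v ∈ S.V, v ∉ Z → v ∈ P ∧ v ∉ F := by
    intro v hv hvZ
    rw [hZdef, Finset.mem_union, not_or] at hvZ
    refine ⟨?_, hvZ.2⟩
    rw [hPdef, Finset.mem_filter]
    refine ⟨hv, ?_⟩
    by_contra hcon
    apply hvZ.1
    rw [hZ1def, Finset.mem_filter]
    exact ⟨hv, hcon⟩
  have hrkw : ∀ v ∈ S.V, v ∉ Z → ∀ w ∈ out v, w ∉ Z → rk0 v < rk0 w := by
    intro v hv hvZ w hw hwZ
    have h1 := hnZ v hv hvZ
    have h2 := hnZ w ((hmem_out v w).mp hw).1 hwZ
    exact hrk0 v h1.1 h1.2 w hw h2.1 h2.2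
  have hZne : Z.Nonempty := by
    rw [Finset.nonempty_iff_ne_empty]
    intro hZe
    have hVne : S.V.Nonempty := Finset.card_pos.mp hVpos
    obtain ⟨v, hv, hvmax⟩ := Finset.exists_max_image S.V rk0 hVne
    have hvZ : v ∉ Z := by
      rw [hZe]
      exact Finset.notMem_empty v
    have h1 := houtcard v (hnZ v hv hvZ).1
    have h2 : (out v).Nonempty := by
      rw [← Finset.card_pos]
      omega
    obtain ⟨w, hw⟩ := h2
    have h3 := hrkw v hv hvZ w hw (by rw [hZe]; exact Finset.notMem_empty w)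
    have h4 := hvmax w ((hmem_out v w).mp hw).1
    omega
  obtain ⟨idx, hidx, hidxinj⟩ := CO_index S.V
  set n := S.V.card with hndef
  obtain ⟨M, hM⟩ : ∃ M, ∀ v ∈ S.V, rk0 v * n + idx v < M := by
    refine ⟨(S.V.sup fun v => rk0 v * n + idx v) + 1, fun v hv => ?_⟩
    exact Nat.lt_succ_of_le (Finset.le_sup (f := fun v => rk0 v * n + idx v) hv)
  set rk : α → ℕ := fun v => if v ∈ Z then M + idx v else rk0 v * n + idx v with hrk
  have hrkZ : ∀ v ∈ Z, rk v = M + idx v := by
    intro v hv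
    rw [hrk]
    simp only [if_pos hv]
  have hrkn : ∀ v, v ∉ Z → rk v = rk0 v * n + idx v := by
    intro v hv
    rw [hrk]
    simp only [if_neg hv]
  have hVZsub : ∀ v ∈ S.V \ Z, v ∈ P := by
    intro v hv
    have h1 := Finset.mem_sdiff.mp hv
    exact (hnZ v h1.1 h1.2).1
  have himgcard : ((S.V \ Z).image st).card = (S.V \ Z).card := by
    apply Finset.card_image_of_injOn
    intro v hv w hw h
    exact hstinj v (hVZsub v (Finset.mem_coe.mp hv)) w (hVZsub w (Finset.mem_coe.mp hw)) h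
  have himgsub : (S.V \ Z).image st ⊆ S.C := by
    intro a ha
    obtain ⟨v, hv, rfl⟩ := Finset.mem_image.mp ha
    exact (hst v (hVZsub v hv)).1
  refine ⟨Z, S.C \ (S.V \ Z).image st, st, out, rk, ?_, ?_⟩
  · constructor
    · exact hZsub
    · exact hZne
    · exact Finset.sdiff_subset
    · rw [Finset.card_sdiff_of_subset himgsub, himgcard, Finset.card_sdiff_of_subset hZsub, hG.1]
      have := Finset.card_le_card hZsub
      omega
    · intro v hv hvZ
      refine ⟨(hst v (hnZ v hv hvZ).1).1, ?_⟩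
      intro hcon
      exact (Finset.mem_sdiff.mp hcon).2
        (Finset.mem_image_of_mem st (Finset.mem_sdiff.mpr ⟨hv, hvZ⟩))
    · intro v hv hvZ w hw hwZ h
      exact hstinj v (hnZ v hv hvZ).1 w (hnZ w hw hwZ).1 h
    · intro a haC haR
      have h1 : a ∈ (S.V \ Z).image st := by
        by_contra hcon
        exact haR (Finset.mem_sdiff.mpr ⟨haC, hcon⟩)
      obtain ⟨v, hv, rfl⟩ := Finset.mem_image.mp h1
      have h2 := Finset.mem_sdiff.mp hv
      exact ⟨v, h2.1, h2.2, rfl⟩
    · intro v hv hvZ w hw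
      exact ((hmem_out v w).mp hw).1
    · intro v hv hvZ
      exact houtcard v (hnZ v hv hvZ).1
    · intro v hv hvZ e
      exact houtE v (hnZ v hv hvZ).1 e
    · intro v hv w hw h
      by_cases hvZ : v ∈ Z <;> by_cases hwZ : w ∈ Z
      · rw [hrkZ v hvZ, hrkZ w hwZ] at h
        exact hidxinj v hv w hw (by omega)
      · rw [hrkZ v hvZ, hrkn w hwZ] at h
        have := hM w hw
        omega
      · rw [hrkn v hvZ, hrkZ w hwZ] at h
        have := hM v hv
        omega
      · rw [hrkn v hvZ, hrkn w hwZ] at h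
        have h1 := hidx v hv
        have h2 := hidx w hw
        have h3 : (rk0 v * n + idx v) % n = (rk0 w * n + idx w) % n := by rw [h]
        rw [Nat.mul_comm, Nat.mul_add_mod, Nat.mul_comm, Nat.mul_add_mod, Nat.mod_eq_of_lt h1,
          Nat.mod_eq_of_lt h2] at h3
        exact hidxinj v hv w hw h3
    · intro v hv hvZ w hw
      have hwV := ((hmem_out v w).mp hw).1
      rw [hrkn v hvZ]
      by_cases hwZ : w ∈ Z
      · rw [hrkZ w hwZ]
        have := hM v hv
        omega
      · rw [hrkn w hwZ]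
        have h1 := hrkw v hv hvZ w hw hwZ
        have h2 := hidx v hv
        have h3 : (rk0 v + 1) * n ≤ rk0 w * n := Nat.mul_le_mul_right _ h1
        nlinarith
  · exact le_trans (Nat.mul_le_mul_left _ hZcard) hnum

end Pool.Agent.helper19.AR
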