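import Mathlib

/-!
# Aharoni's rainbow cycle conjecture for large `n` (MP_962e14_co): definitions

A system `S` is a finite vertex set `V`, a finite colour set `C`, and for each colour `a` the
finite set `E a` of the edges of colour `a`.
-/

namespace Pool.Agent.helper19.AR

/-- a coloured system -/
structure Sys (α β : Type) where
  V : Finset α
  C : Finset β
  E : β → Finset (Sym2 α)

/-- as many colours as vertices, every class consists of exactly `r` edges (no loops) inside `V` -/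
def Good {α β : Type} (r : ℕ) (S : Sys α β) : Prop :=
  S.C.card = S.V.card ∧
    ∀ a ∈ S.C, (S.E a).card = r ∧ ∀ e ∈ S.E a, ¬ e.IsDiag ∧ ∀ x ∈ e, x ∈ S.V

open Classical in
/-- the colours having an edge inside `A` -/
noncomputable def col {α β : Type} (S : Sys α β) (A : Finset α) : Finset β :=
  S.C.filter (fun a => ∃ e ∈ S.E a, ∀ x ∈ e, x ∈ A)

/-- no nonempty set of at most `ℓ` vertices contains edges of at least as many colours as it has
elements (this is equivalent to: no rainbow cycle of length at most `ℓ`) -/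
def Sparse {α β : Type} (S : Sys α β) (ℓ : ℕ) : Prop :=
  ∀ A ⊆ S.V, A.Nonempty → A.card ≤ ℓ → (col S A).card < A.card

/-- a counterexample of parameter `ℓ` -/
def CE {α β : Type} (r : ℕ) (S : Sys α β) (ℓ : ℕ) : Prop :=
  Good r S ∧ Sparse S ℓ ∧ S.V.card ≤ r * ℓ

/-- every edge of colour `a` contains `v` -/
def IsStar {α β : Type} (S : Sys α β) (v : α) (a : β) : Prop := ∀ e ∈ S.E a, v ∈ e

/-- the core structure: apart from a set `R` of colours, all colours are the stars `st v` at the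
vertices `v` outside of a set `Z` of sinks, `out v` is the set of the leaves, and all arcs
`v → w`, `w ∈ out v`, increase the rank `rk` -/
structure Core {α β : Type} (r : ℕ) (S : Sys α β) (Z : Finset α) (R : Finset β) (st : α → β)
    (out : α → Finset α) (rk : α → ℕ) : Prop where
  Z_sub : Z ⊆ S.V
  Z_ne : Z.Nonempty
  R_sub : R ⊆ S.C
  R_card : R.card = Z.card
  st_mem : ∀ v ∈ S.V, v ∉ Z → st v ∈ S.C ∧ st v ∉ R
  st_inj : ∀ v ∈ S.V, v ∉ Z → ∀ w ∈ S.V, w ∉ Z → st v = st w → v = w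
  st_surj : ∀ a ∈ S.C, a ∉ R → ∃ v ∈ S.V, v ∉ Z ∧ st v = a
  out_sub : ∀ v ∈ S.V, v ∉ Z → out v ⊆ S.V
  out_card : ∀ v ∈ S.V, v ∉ Z → (out v).card = r
  out_E : ∀ v ∈ S.V, v ∉ Z → ∀ e, e ∈ S.E (st v) ↔ ∃ w ∈ out v, e = s(v, w)
  rk_inj : ∀ v ∈ S.V, ∀ w ∈ S.V, rk v = rk w → v = w
  rk_lt : ∀ v ∈ S.V, v ∉ Z → ∀ w ∈ out v, rk v < rk w

/-- an acyclic digraph on `V` with sinks `Z` -/
structure Dag {α : Type} (r : ℕ) (V Z : Finset α) (out : α → Finset α) (rk : α → ℕ) : Prop where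
  Z_sub : Z ⊆ V
  out_sub : ∀ v ∈ V, v ∉ Z → out v ⊆ V
  out_card : ∀ v ∈ V, v ∉ Z → (out v).card = r
  rk_inj : ∀ v ∈ V, ∀ w ∈ V, rk v = rk w → v = w
  rk_lt : ∀ v ∈ V, v ∉ Z → ∀ w ∈ out v, rk v < rk w

/-- the vertices at distance at most `i` from `y` -/
def ball {α : Type} [DecidableEq α] (out : α → Finset α) (y : α) : ℕ → Finset α
  | 0 => {y}
  | (i + 1) => ball out y i ∪ (ball out y i).biUnion out

/-- A layered strand: layers `0, ..., M` of `r` vertices `v j i` (`i < r`), the vertices of the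
layers `< M` are centres of star classes `c j i` with leaves `N j i` in the later part of the same
layer or in the next layer; no other colour touches the layers `1, ..., M - 1`. -/
structure Lay {α β : Type} (r M : ℕ) (S : Sys α β) (v : ℕ → ℕ → α) (c : ℕ → ℕ → β)
    (N : ℕ → ℕ → Finset α) : Prop where
  v_mem : ∀ j ≤ M, ∀ i < r, v j i ∈ S.V
  v_inj : ∀ j ≤ M, ∀ i < r, ∀ j' ≤ M, ∀ i' < r, v j i = v j' i' → j = j' ∧ i = i'
  c_mem : ∀ j < M, ∀ i < r, c j i ∈ S.C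
  c_inj : ∀ j < M, ∀ i < r, ∀ j' < M, ∀ i' < r, c j i = c j' i' → j = j' ∧ i = i'
  c_E : ∀ j < M, ∀ i < r, ∀ e, e ∈ S.E (c j i) ↔ ∃ w ∈ N j i, e = s(v j i, w)
  N_card : ∀ j < M, ∀ i < r, (N j i).card = r
  N_sub : ∀ j < M, ∀ i < r, ∀ w ∈ N j i,
    (∃ i' < r, i < i' ∧ w = v j i') ∨ (∃ i' < r, w = v (j + 1) i')
  clean : ∀ a ∈ S.C, ∀ e ∈ S.E a, ∀ j, 1 ≤ j → j < M → ∀ i < r, v j i ∈ e →
    ∃ j' < M, ∃ i' < r, a = c j' i'

/-- A perfect strand: vertices `u 0, ..., u (N + r - 1)`, the vertices `u j`, `j < N`, are the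
centres of the star classes `c j` with leaves `u (j + 1), ..., u (j + r)`; no other colour touches
the vertices `u j`, `r ≤ j < N`. -/
structure Perf {α β : Type} (r N : ℕ) (S : Sys α β) (u : ℕ → α) (c : ℕ → β) : Prop where
  u_mem : ∀ j < N + r, u j ∈ S.V
  u_inj : ∀ j < N + r, ∀ j' < N + r, u j = u j' → j = j'
  c_mem : ∀ j < N, c j ∈ S.C
  c_inj : ∀ j < N, ∀ j' < N, c j = c j' → j = j'
  c_E : ∀ j < N, ∀ e, e ∈ S.E (c j) ↔ ∃ t, 1 ≤ t ∧ t ≤ r ∧ e = s(u j, u (j + t))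
  clean : ∀ a ∈ S.C, (∀ j < N, a ≠ c j) → ∀ e ∈ S.E a, ∀ j, r ≤ j → j < N → u j ∉ e

open Classical in
/-- the leaves of a perfect star -/
noncomputable def PN {α : Type} (r : ℕ) (v : ℕ → ℕ → α) (j i : ℕ) : Finset α :=
  (Finset.Ioo i r).image (v j) ∪ (Finset.range (i + 1)).image (v (j + 1))

/-- `S'` is obtained from `S` by making the star classes of the layers `p, ..., q - 1` perfect -/
structure IsMod {α β : Type} (r p q : ℕ) (S S' : Sys α β) (v : ℕ → ℕ → α) (c : ℕ → ℕ → β) :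
    Prop where
  V_eq : S'.V = S.V
  C_eq : S'.C = S.C
  E_ne : ∀ a, (∀ j, p ≤ j → j < q → ∀ i < r, a ≠ c j i) → S'.E a = S.E a
  E_in : ∀ j, p ≤ j → j < q → ∀ i < r, ∀ e, e ∈ S'.E (c j i) ↔ ∃ w ∈ PN r v j i, e = s(v j i, w)

/-- Routing property: from every vertex `v j i` with `j ≤ p` there is, for every `τ < r`, a set `W`
containing `v j i`, inside the layers `j, ..., q - 1`, of size at most `q - j` (plus one if
`i < τ`), all whose vertices have an out-neighbour in `W ∪ {v q τ}`. -/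
def RR {α : Type} (r p q : ℕ) (v : ℕ → ℕ → α) (N : ℕ → ℕ → Finset α) : Prop :=
  ∀ j ≤ p, ∀ i < r, ∀ τ < r, ∃ W : Finset α, v j i ∈ W ∧
    W.card ≤ (q - j) + (if i < τ then 1 else 0) ∧
    ∀ x ∈ W, ∃ j' i', j ≤ j' ∧ j' < q ∧ i' < r ∧ x = v j' i' ∧
      ∃ w ∈ N j' i', w ∈ W ∨ w = v q τ

end Pool.Agent.helper19.AR
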