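import Pool.Agent.helper19.AR.Defs

/-!
# Aharoni's rainbow cycle conjecture for large `n` (MP_962e14_co): more definitions
-/

namespace Pool.Agent.helper19.AR

/-- the layers of the breadth first search from `y` -/
def lay {α : Type} [DecidableEq α] (out : α → Finset α) (y : α) : ℕ → Finset α
  | 0 => {y}
  | (i + 1) => ball out y (i + 1) \ ball out y i

/-- the output of the process: starting points `y ∈ Y`, distances `d y ≥ 1`, pairwise disjoint
regions `Ec y` without sinks, of size at least `K`, containing the ball of radius `d y - 1` -/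
structure Proc {α : Type} [DecidableEq α] (K : ℕ) (V Z : Finset α) (out : α → Finset α)
    (Y : Finset α) (d : α → ℕ) (Ec : α → Finset α) : Prop where
  Y_sub : ∀ y ∈ Y, y ∈ V ∧ y ∉ Z
  d_pos : ∀ y ∈ Y, 1 ≤ d y
  E_sub : ∀ y ∈ Y, ∀ x ∈ Ec y, x ∈ V ∧ x ∉ Z
  E_card : ∀ y ∈ Y, K ≤ (Ec y).card
  ball_sub : ∀ y ∈ Y, ball out y (d y - 1) ⊆ Ec y
  disj : ∀ y ∈ Y, ∀ y' ∈ Y, y ≠ y' → Disjoint (Ec y) (Ec y')

/-- `z` lies in a layer of exactly `r` vertices, at distance between `1` and `d y - 2` from some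
starting point `y` -/
def Internal {α : Type} [DecidableEq α] (r : ℕ) (out : α → Finset α) (Y : Finset α) (d : α → ℕ)
    (z : α) : Prop :=
  ∃ y ∈ Y, ∃ i, 1 ≤ i ∧ i + 2 ≤ d y ∧ (lay out y i).card = r ∧ z ∈ lay out y i

/-- one step of the digraph, from a non-sink -/
def Stp {α : Type} (V Z : Finset α) (out : α → Finset α) (a b : α) : Prop :=
  a ∈ V ∧ a ∉ Z ∧ b ∈ out a

open Classical in
/-- the non-sinks reachable from `x` -/
noncomputable def reach {α : Type} (V Z : Finset α) (out : α → Finset α) (x : α) : Finset α :=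
  V.filter (fun w => w ∉ Z ∧ Relation.ReflTransGen (Stp V Z out) x w)

/-- the vertices of the layers `j, ..., q - 1` -/
def segm {α : Type} [DecidableEq α] (r : ℕ) (v : ℕ → ℕ → α) (j q : ℕ) : Finset α :=
  (Finset.Ico j q ×ˢ Finset.range r).image (fun x => v x.1 x.2)

/-- the vertices of a perfect strand after removal of the vertices `u j`, `N - r * m ≤ j < N` -/
def cutu {α : Type} (r N m : ℕ) (u : ℕ → α) (j : ℕ) : α :=
  if j < N - r * m then u j else u (j + r * m)

/-- `S'` is obtained from `S` by removing the vertices `u j` and colours `c j` for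
`N - r * m ≤ j < N` of the perfect strand, and relinking the strand to its exits -/
structure IsCut {α β : Type} (r N m : ℕ) (S S' : Sys α β) (u : ℕ → α) (c : ℕ → β) : Prop where
  V_iff : ∀ x, x ∈ S'.V ↔ x ∈ S.V ∧ ∀ j, N - r * m ≤ j → j < N → x ≠ u j
  C_iff : ∀ a, a ∈ S'.C ↔ a ∈ S.C ∧ ∀ j, N - r * m ≤ j → j < N → a ≠ c j
  E_ne : ∀ a, (∀ j < N, a ≠ c j) → S'.E a = S.E a
  E_in : ∀ j < N - r * m, ∀ e, e ∈ S'.E (c j) ↔
    ∃ t, 1 ≤ t ∧ t ≤ r ∧ e = s(u j, cutu r N m u (j + t))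

/-- the `k`-fold cyclic cover of `S`: the edges of the strand stars which go to the exits go one
level up, all other edges stay in their level -/
structure IsCover {α β : Type} (r N k : ℕ) (S : Sys α β) (S' : Sys (α × ZMod k) (β × ZMod k))
    (u : ℕ → α) (c : ℕ → β) : Prop where
  V_iff : ∀ x i, (x, i) ∈ S'.V ↔ x ∈ S.V
  C_iff : ∀ a i, (a, i) ∈ S'.C ↔ a ∈ S.C
  E_ne : ∀ a i, (∀ j < N, a ≠ c j) → ∀ e, e ∈ S'.E (a, i) ↔
    ∃ x y, s(x, y) ∈ S.E a ∧ e = s((x, i), (y, i))
  E_in : ∀ j < N, ∀ i, ∀ e, e ∈ S'.E (c j, i) ↔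
    ∃ t, 1 ≤ t ∧ t ≤ r ∧ e = s((u j, i), (u (j + t), if j + t < N then i else i + 1))

/-- `B` is a minimal violating set of `S` -/
structure MinV {α β : Type} (S : Sys α β) (B : Finset α) : Prop where
  sub : B ⊆ S.V
  ne : B.Nonempty
  viol : B.card ≤ (col S B).card
  min : ∀ D ⊆ B, D ≠ B → D.Nonempty → (col S D).card < D.card

end Pool.Agent.helper19.AR
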