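import Pool.Agent.helper19.AR.RDe

/-! # AR (MP_962e14_co): the numerical value of the threshold -/

namespace Pool.Agent.helper19.AR

/-- the threshold of the main theorem -/
def mainN (r : ℕ) : ℕ :=
  smN r ((r ^ 2 + r + 1) + (rdN r + r + 3) + r ^ 2 + 2)

theorem coN_le (r T : ℕ) (hr : 2 ≤ r) (hT : 10 ≤ T) : coN r T ≤ 40000 * r ^ 2 * T ^ 2 := by
  unfold coN
  have h1 : r ≤ r ^ 2 := by nlinarith
  have h2 : 4 ≤ r ^ 2 := by nlinarith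
  have h3 : 10 * T ≤ T ^ 2 := by nlinarith
  have h5 : r ^ 2 * (10 * T) ≤ r ^ 2 * T ^ 2 := Nat.mul_le_mul_left _ h3
  have h6 : r ^ 2 * 100 ≤ r ^ 2 * T ^ 2 := Nat.mul_le_mul_left _ (by nlinarith)
  have h7 : 576 * r ^ 2 * (2 * T) * (16 * (2 * T) + 1)
      = 36864 * (r ^ 2 * T ^ 2) + 1152 * (r ^ 2 * T) := by ring
  have h8 : 40000 * r ^ 2 * T ^ 2 = 40000 * (r ^ 2 * T ^ 2) := by ring
  have h9 : 50 * T * r ^ 2 = 50 * (r ^ 2 * T) := by ring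
  rw [h7, h8, h9]
  have h10 : r ^ 2 * (10 * T) = 10 * (r ^ 2 * T) := by ring
  rw [h10] at h5
  omega

theorem smN_le (r M B : ℕ) (hr : 2 ≤ r) (h : 100 * r ^ 4 * (M + 1) ≤ B) :
    smN r M ≤ 1000000 * r ^ 2 * B ^ 4 := by
  unfold smN
  have h4 : 16 ≤ r ^ 4 := by
    calc 16 = 2 ^ 4 := by norm_num
      _ ≤ r ^ 4 := Nat.pow_le_pow_left hr 4
  have hK : 1600 ≤ 100 * r ^ 4 * (M + 1) := by nlinarith
  set K := 100 * r ^ 4 * (M + 1) with hKd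
  have h5 : K * (4 * K + 1) ≤ 5 * B ^ 2 := by nlinarith
  have h6 : 10 ≤ K * (4 * K + 1) := by nlinarith
  calc coN r (K * (4 * K + 1)) ≤ 40000 * r ^ 2 * (K * (4 * K + 1)) ^ 2 := coN_le r _ hr h6
    _ ≤ 40000 * r ^ 2 * (5 * B ^ 2) ^ 2 :=
        Nat.mul_le_mul_left _ (Nat.pow_le_pow_left h5 2)
    _ = 1000000 * r ^ 2 * B ^ 4 := by ring

theorem rdN_le (r : ℕ) (hr : 2 ≤ r) : rdN r ≤ 6553600000000000000 * r ^ 30 := by
  unfold rdN
  have h := smN_le r ((3 * r + 1) * (r ^ 2 + r + 1 + 2 + r ^ 2 + 2 + 1) - 1) (1600 * r ^ 7) hr (by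
    have h1 : (3 * r + 1) * (r ^ 2 + r + 1 + 2 + r ^ 2 + 2 + 1) - 1 + 1
        = (3 * r + 1) * (r ^ 2 + r + 1 + 2 + r ^ 2 + 2 + 1) := by
      have : 0 < (3 * r + 1) * (r ^ 2 + r + 1 + 2 + r ^ 2 + 2 + 1) := by positivity
      omega
    rw [h1]
    have h2 : 3 * r + 1 ≤ 4 * r := by omega
    have h3 : r ^ 2 + r + 1 + 2 + r ^ 2 + 2 + 1 ≤ 4 * r ^ 2 := by nlinarith
    calc 100 * r ^ 4 * ((3 * r + 1) * (r ^ 2 + r + 1 + 2 + r ^ 2 + 2 + 1))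
        ≤ 100 * r ^ 4 * (4 * r * (4 * r ^ 2)) :=
          Nat.mul_le_mul_left _ (Nat.mul_le_mul h2 h3)
      _ = 1600 * r ^ 7 := by ring)
  refine h.trans (le_of_eq ?_)
  ring

/-- **The threshold is at most `(10 r) ^ 138`.** -/
theorem mainN_le (r : ℕ) (hr : 2 ≤ r) : mainN r ≤ (10 * r) ^ 138 := by
  unfold mainN
  have h0 := rdN_le r hr
  have hpow : ∀ k, 1 ≤ k → r ≤ r ^ k := fun k hk => Nat.le_self_pow (by omega) r
  have h2 : r ^ 2 ≤ r ^ 30 := Nat.pow_le_pow_right (by omega) (by norm_num)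
  have h1 : r ≤ r ^ 30 := hpow 30 (by norm_num)
  have h3 : 1 ≤ r ^ 30 := Nat.one_le_pow _ _ (by omega)
  have h := smN_le r ((r ^ 2 + r + 1) + (rdN r + r + 3) + r ^ 2 + 2)
    (700000000000000000000 * r ^ 34) hr (by
    calc 100 * r ^ 4 * ((r ^ 2 + r + 1) + (rdN r + r + 3) + r ^ 2 + 2 + 1)
        ≤ 100 * r ^ 4 * (7000000000000000000 * r ^ 30) :=
          Nat.mul_le_mul_left _ (by omega)
      _ = 700000000000000000000 * r ^ 34 := by ring)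
  refine h.trans ?_
  calc 1000000 * r ^ 2 * (700000000000000000000 * r ^ 34) ^ 4
      = (1000000 * 700000000000000000000 ^ 4) * r ^ 138 := by ring
    _ ≤ 10 ^ 138 * r ^ 138 := Nat.mul_le_mul_right _ (by norm_num)
    _ = (10 * r) ^ 138 := by rw [mul_pow]

end Pool.Agent.helper19.AR
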