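import Pool.Agent.helper19.AR.Basic
import Pool.Agent.helper97.AR.CV
import Pool.Agent.helper19.AR.Num
import Pool.Agent.helper35.AR.RQ
import Pool.Agent.helper9.AR.PA
import Pool.Agent.helper13.AR.PD
import Pool.Agent.helper52.AR.PB
import Pool.Agent.helper52.AR.AT
import Pool.Agent.helper18.AR.PS
import Pool.Agent.helper18.AR.TR
import Pool.Agent.helper63.AR.CVa

/-!
# Aharoni's rainbow cycle conjecture for large `n` (MP_962e14_co): assembly
-/

namespace Pool.Agent.helper19.AR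

/-- **Main theorem**: there is no counterexample with at least `(10 r) ^ 138` vertices. -/
theorem MAIN (r : ℕ) (hr : 2 ≤ r) (α β : Type) [DecidableEq α] [DecidableEq β]
    (S : Sys α β) (ℓ : ℕ) (hn : (10 * r) ^ 138 ≤ S.V.card) : ¬ CE r S ℓ := by
  intro hCE
  replace hn := (mainN_le r hr).trans hn
  unfold mainN at hn
  have hRD := RDe r hr
  have hSM := SMe r ((r ^ 2 + r + 1) + (rdN r + r + 3) + r ^ 2 + 2) hr
  set n1 : ℕ := rdN r with hn1
  set N0 : ℕ := n1 + r + 3 with hN0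
  set M : ℕ := (r ^ 2 + r + 1) + N0 + r ^ 2 + 2 with hM
  obtain ⟨v, c, N, hL⟩ := hSM α β S ℓ hCE hn
  obtain ⟨q, hq1, hq2, hR⟩ := RQ r M (r ^ 2 + r + 1) N0 hr (le_of_eq rfl) S v c N hL
  obtain ⟨S', hM', hG', hL'⟩ := PA r M (r ^ 2 + r + 1) q hr hq2.le S v c N hL hCE.1
  have hS' : Sparse S' ℓ := PD r M (r ^ 2 + r + 1) q ℓ hr le_rfl (by omega) hq2 S S' v c N hL hM' hL'
    hR hCE.2.1
  have hCE' : CE r S' ℓ := ⟨hG', hS', by rw [hM'.V_eq]; exact hCE.2.2⟩
  have hP := PB r M (r ^ 2 + r + 1) q hr (by omega) (by omega) hq2.le S S' v c N hL hM' hL'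
  have hqp : N0 ≤ q - (r ^ 2 + r + 1) := by omega
  have hP' := PS r _ 0 (r * N0) S' _ _ hP (by rw [Nat.zero_add]; exact Nat.mul_le_mul_left _ hqp)
  obtain ⟨S2, ℓ2, hCE2, hP2, hlt⟩ := hRD N0 (by omega) α β S' ℓ _ _ hCE' hP'
  -- the cover
  have hN0r : r < r * N0 := by
    have : 3 ≤ N0 := by omega
    nlinarith
  have hVge : r * N0 + r ≤ S2.V.card := by
    have hinj : Set.InjOn (fun j => (fun j => (fun j => v (r ^ 2 + r + 1 + j / r) (j % r)) (0 + j)) j)
        (Finset.range (r * N0 + r) : Set ℕ) := by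
      intro a ha b hb hab
      exact hP2.u_inj a (by simpa using ha) b (by simpa using hb) hab
    have h1 := Finset.card_image_of_injOn hinj
    rw [Finset.card_range] at h1
    rw [← h1]
    apply Finset.card_le_card
    intro x hx
    obtain ⟨j, hj, rfl⟩ := Finset.mem_image.mp hx
    exact hP2.u_mem j (by simpa using hj)
  have hℓ2 : S2.V.card + r ≤ r * N0 + ℓ2 := by
    have h1 : r * N0 + r ≤ r * ℓ2 := hVge.trans hCE2.2.2
    have h2 : N0 + 1 ≤ ℓ2 := by
      have : r * (N0 + 1) ≤ r * ℓ2 := by rw [Nat.mul_add, Nat.mul_one]; exact h1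
      exact Nat.le_of_mul_le_mul_left this (by omega)
    omega
  set n := S2.V.card with hn2
  have hnpos : 1 ≤ n := by omega
  obtain ⟨nA, hAT⟩ := AT r (2 * r * n) hr (Nat.mul_pos (by omega) (by omega))
  set k := 2 * r + nA with hk
  have : NeZero k := ⟨by omega⟩
  obtain ⟨S3, hCov, hG3, hc3⟩ := CVa r (r * N0) k hr S2 _ _ hCE2.1 hP2
  set m := (k * (r * ℓ2 + 1) - 1) / r with hmdef
  have hm1 : r * m < k * (r * ℓ2 + 1) := by
    have h1 : r * m ≤ k * (r * ℓ2 + 1) - 1 := Nat.mul_div_le _ _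
    have h2 : 1 ≤ k * (r * ℓ2 + 1) := Nat.mul_pos (by omega) (by omega)
    omega
  have hm2 : k * (r * ℓ2 + 1) ≤ r * m + r := by
    have h1 : k * (r * ℓ2 + 1) - 1 < r * (m + 1) := by
      rw [hmdef]
      exact Nat.lt_mul_div_succ _ (by omega)
    have h2 : r * (m + 1) = r * m + r := by ring
    omega
  have hSp := CV r (r * N0) k ℓ2 m hr hN0r S2 _ _ hCE2.1 hP2 hCE2.2.1 hℓ2 S3 hCov hm1
  have hAT' := hAT _ _ S3 m hG3 hSp (by
    rw [hc3]
    have : nA ≤ k := by omega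
    nlinarith)
  rw [hc3] at hAT'
  -- numbers
  have hr2 : n ≤ r * ℓ2 := hCE2.2.2
  have h5 : k * (n + 1) ≤ r * m + r := by
    refine le_trans ?_ hm2
    exact Nat.mul_le_mul_left _ (by omega)
  have h6 : 2 * r * n * (k * (n + 1)) ≤ 2 * r * n * (r * m + r) := Nat.mul_le_mul_left _ h5
  have h7 : r * (2 * r * n) * m < (2 * r * n + r) * (k * n) := hAT'
  have h8 : r * n * k < r * n * (2 * r) := by nlinarith
  have h9 : k < 2 * r := lt_of_mul_lt_mul_left h8 (Nat.zero_le _)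
  omega

end Pool.Agent.helper19.AR
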