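import Pool.Agent.helper97.AR.RD1
import Pool.Agent.helper19.AR.SMe

/-! # AR (MP_962e14_co): modules RD1 and RD with an explicit threshold -/

namespace Pool.Agent.helper19.AR

/-- the threshold of module RD -/
def rdN (r : ℕ) : ℕ :=
  smN r ((3 * r + 1) * (r ^ 2 + r + 1 + 2 + r ^ 2 + 2 + 1) - 1)

/-- module RD1, explicit -/
theorem RD1e (r : ℕ) (hr : 2 ≤ r) : ∀ (N0 : ℕ), 3 ≤ N0 → ∀ (α β : Type)
    [DecidableEq α] [DecidableEq β] (S : Sys α β) (ℓ : ℕ) (u : ℕ → α) (c : ℕ → β),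
    CE r S ℓ → Perf r (r * N0) S u c → r * N0 + rdN r ≤ S.V.card →
    ∃ (S' : Sys α β) (ℓ' : ℕ), CE r S' ℓ' ∧ Perf r (r * N0) S' u c ∧
      S'.V.card < S.V.card := by
  set p : ℕ := r ^ 2 + r + 1 with hp
  set M : ℕ := p + 2 + r ^ 2 + 2 with hM
  set M1 : ℕ := (3 * r + 1) * (M + 1) - 1 with hM1
  have hM1' : (3 * r + 1) * (M + 1) ≤ M1 + 1 := by omega
  have hSM := SMe r M1 hr
  intro N0 hN0 α β _ _ S ℓ u c hCE hP hn
  unfold rdN at hn
  rw [← hp, ← hM, ← hM1] at hn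
  set n1 : ℕ := smN r M1 with hn1
  obtain ⟨hG, hS, hVl⟩ := hCE
  -- shorten the strand
  set m : ℕ := N0 - 2 with hm
  have hrm : r * m + 2 * r = r * N0 := by
    rw [hm, Nat.mul_sub, Nat.mul_comm 2 r]
    have : r * 2 ≤ r * N0 := Nat.mul_le_mul_left r (by omega)
    omega
  have hN : r + r * m ≤ r * N0 := by omega
  have hNm : r * N0 - r * m = 2 * r := by omega
  obtain ⟨Sm, hC, hGm, hPm, hcm⟩ := ELa r (r * N0) m hr hN S u c hG hP
  have hSm : Sparse Sm (ℓ - m) := EL r (r * N0) m ℓ hr (by omega) hN S Sm u c hG hP hC hS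
  have hCEm : CE r Sm (ℓ - m) := by
    refine ⟨hGm, hSm, ?_⟩
    rw [Nat.mul_sub]
    omega
  obtain ⟨v, c1, L, hL⟩ := hSM α β Sm (ℓ - m) hCEm (by omega)
  obtain ⟨a, ha, hX⟩ := RDa r M M1 v ((Finset.range (3 * r)).image (cutu r (r * N0) m u))
    (le_trans Finset.card_image_le (by rw [Finset.card_range])) hM1' hL.v_inj
  obtain ⟨h1, h2, hL'⟩ := RD1_lay r (r * N0) m M M1 a hr hN hNm S Sm u c hP hC hGm hPm v c1 L
    hL ha hX
  set v' : ℕ → ℕ → α := fun j i => v (a + j) i with hv'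
  set c' : ℕ → ℕ → β := fun j i => c1 (a + j) i with hc'
  set L' : ℕ → ℕ → Finset α := fun j i => L (a + j) i with hL''
  obtain ⟨q, hq1, hq2, hR⟩ := RQ r M p 2 hr le_rfl S v' c' L' hL'
  obtain ⟨S1, hMod, hG1, hL1⟩ := PA r M p q hr hq2.le S v' c' L' hL' hG
  have hS1 : Sparse S1 ℓ := PD r M p q ℓ hr le_rfl (by omega) hq2 S S1 v' c' L' hL' hMod hL1 hR hS
  have hP1 := PB r M p q hr (by omega) (by omega) hq2.le S S1 v' c' L' hL' hMod hL1
  set u2 : ℕ → α := fun j => v' (p + j / r) (j % r) with hu2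
  set c2 : ℕ → β := fun j => c' (p + j / r) (j % r) with hc2
  have hr0 : 0 < r := by omega
  have hN2 : r + r * 1 ≤ r * (q - p) := by
    have : r * 3 ≤ r * (q - p) := Nat.mul_le_mul_left r (by omega)
    omega
  obtain ⟨S2, hC2, hG2, hP2, hcard2⟩ := ELa r (r * (q - p)) 1 hr hN2 S1 u2 c2 hG1 hP1
  have hS2 : Sparse S2 (ℓ - 1) :=
    EL r (r * (q - p)) 1 ℓ hr le_rfl hN2 S1 S2 u2 c2 hG1 hP1 hC2 hS1
  have hV1 : S1.V = S.V := hMod.V_eq
  rw [hV1] at hcard2
  -- the new strand avoids the old one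
  have hdiv : ∀ x, x < r * (q - p) + r → p + x / r ≤ q := by
    intro x hx
    have : x / r < q - p + 1 := by
      rw [Nat.div_lt_iff_lt_mul hr0]
      rw [Nat.add_mul, Nat.one_mul, Nat.mul_comm (q - p) r]
      exact hx
    omega
  have hdiv' : ∀ x, x < r * (q - p) → p + x / r < q := by
    intro x hx
    have : x / r < q - p := by
      rw [Nat.div_lt_iff_lt_mul hr0, Nat.mul_comm (q - p) r]
      exact hx
    omega
  have hu2u : ∀ x, x < r * (q - p) + r → ∀ k < r * N0 + r, u2 x ≠ u k := by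
    intro x hx k hk
    exact h1 (p + x / r) (by have := hdiv x hx; omega) (x % r) (Nat.mod_lt _ hr0) k hk
  have hc2c : ∀ x, x < r * (q - p) → ∀ k < r * N0, c2 x ≠ c k := by
    intro x hx k hk
    exact h2 (p + x / r) (by have := hdiv' x hx; omega) (x % r) (Nat.mod_lt _ hr0) k hk
  have hcc' : ∀ k < r * N0, ∀ j, p ≤ j → j < q → ∀ i < r, c k ≠ c' j i := by
    intro k hk j hj1 hj2 i hi heq
    exact h2 j (by omega) i hi k hk heq.symm
  refine ⟨S2, ℓ - 1, ⟨hG2, hS2, ?_⟩, ⟨?_, ?_, ?_, ?_, ?_, ?_⟩, by omega⟩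
  · rw [Nat.mul_sub]
    omega
  · intro j hj
    rw [hC2.V_iff, hV1]
    refine ⟨hP.u_mem j hj, fun x _ hx heq => hu2u x (by omega) j hj heq.symm⟩
  · exact hP.u_inj
  · intro j hj
    rw [hC2.C_iff, hMod.C_eq]
    exact ⟨hP.c_mem j hj, fun x _ hx heq => hc2c x hx j hj heq.symm⟩
  · exact hP.c_inj
  · intro j hj e
    rw [hC2.E_ne (c j) (fun x hx heq => hc2c x hx j hj heq.symm),
      hMod.E_ne (c j) (fun j' h1 h2 i hi => hcc' j hj j' h1 h2 i hi)]
    exact hP.c_E j hj e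
  · intro b hb hbc e he j hj1 hj2 hue
    by_cases hb2 : ∃ x < r * (q - p), b = c2 x
    · obtain ⟨x, hx, rfl⟩ := hb2
      have hx' : x < r * (q - p) - r * 1 := by
        by_contra hcon
        exact ((hC2.C_iff _).1 hb).2 x (by omega) hx rfl
      rw [hC2.E_in x hx'] at he
      obtain ⟨t, ht1, ht2, rfl⟩ := he
      rcases Sym2.mem_iff.mp hue with h | h
      · exact hu2u x (by omega) j (by omega) h.symm
      · unfold cutu at h
        split_ifs at h with hlt
        · exact hu2u (x + t) (by omega) j (by omega) h.symm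
        · exact hu2u (x + t + r * 1) (by omega) j (by omega) h.symm
    · push Not at hb2
      rw [hC2.E_ne b hb2] at he
      have hb3 : ∀ j', p ≤ j' → j' < q → ∀ i < r, b ≠ c' j' i := by
        intro j' h1 h2 i hi heq
        apply hb2 (r * (j' - p) + i) ?_
        · rw [heq, hc2]
          show c' j' i = c' (p + (r * (j' - p) + i) / r) ((r * (j' - p) + i) % r)
          rw [Nat.mul_add_div hr0, Nat.div_eq_of_lt hi, Nat.mul_add_mod, Nat.mod_eq_of_lt hi,
            Nat.add_zero, show p + (j' - p) = j' by omega]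
        · calc r * (j' - p) + i < r * (j' - p) + r := by omega
            _ = r * (j' - p + 1) := by ring
            _ ≤ r * (q - p) := Nat.mul_le_mul_left r (by omega)
      rw [hMod.E_ne b hb3] at he
      have hbC : b ∈ S.C := by
        have := ((hC2.C_iff _).1 hb).1
        rwa [hMod.C_eq] at this
      exact hP.clean b hbC hbc e he j hj1 hj2 hue


/-- module RD, explicit -/
theorem RDe (r : ℕ) (hr : 2 ≤ r) : ∀ (N0 : ℕ), 3 ≤ N0 → ∀ (α β : Type)
    [DecidableEq α] [DecidableEq β] (S : Sys α β) (ℓ : ℕ) (u : ℕ → α) (c : ℕ → β),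
    CE r S ℓ → Perf r (r * N0) S u c →
    ∃ (S' : Sys α β) (ℓ' : ℕ), CE r S' ℓ' ∧ Perf r (r * N0) S' u c ∧
      S'.V.card < r * N0 + rdN r := by
  have h := RD1e r hr
  set n1 : ℕ := rdN r with hn1
  intro N0 hN0 α β _ _ S
  induction hn : S.V.card using Nat.strong_induction_on generalizing S with
  | _ n ih =>
    intro ℓ u c hCE hP
    by_cases hlt : S.V.card < r * N0 + n1
    · exact ⟨S, ℓ, hCE, hP, hlt⟩
    · obtain ⟨S', ℓ', hCE', hP', hlt'⟩ := h N0 hN0 α β S ℓ u c hCE hP (by omega)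
      exact ih S'.V.card (by omega) S' rfl ℓ' u c hCE' hP'

end Pool.Agent.helper19.AR
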