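import Pool.Agent.helper19.AR.Defs2

/-!
# Aharoni's rainbow cycle conjecture for large `n` (MP_962e14_co): statements of the modules
-/

namespace Pool.Agent.helper19.AR

/-! ## Group A: linear excess, centres, cores -/

/-- module IND -/
theorem IND {α : Type} [DecidableEq α] (Z : Finset α) (B : Finset (α × α)) (T : ℕ)
    (hB : B.card ≤ 4 * T * Z.card) :
    ∃ W ⊆ Z, Z.card ≤ 2 * (16 * T + 1) * W.card ∧
      ∀ b ∈ B, b.1 ≠ b.2 → ¬ (b.1 ∈ W ∧ b.2 ∈ W) := by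
  sorry

/-- module EXa -/
theorem EXa {α β : Type} [DecidableEq α] (V : Finset α) (C : Finset β) (p q : β → α)
    (s : ℕ) (hs : 1 ≤ s) (hp : ∀ a ∈ C, p a ∈ V ∧ q a ∈ V ∧ p a ≠ q a)
    (h : ∀ A ⊆ V, A.Nonempty → A.card ≤ 3 * s →
      (C.filter fun a => p a ∈ A ∧ q a ∈ A).card < A.card) :
    ∃ f : α → α, (∀ v ∈ V, f v ∈ V) ∧
      (∀ x ∈ V.image f, (V.filter fun v => f v = x).card ≤ s ∧
        (C.filter fun a => f (p a) = x ∧ f (q a) = x).card + 1 = (V.filter fun v => f v = x).card) ∧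
      (∀ a ∈ C, ∀ b ∈ C, f (p a) ≠ f (q a) → s(f (p a), f (q a)) = s(f (p b), f (q b)) → a = b) ∧
      (∀ a ∈ C, f (p a) ≠ f (q a) →
        s < (V.filter fun v => f v = f (p a)).card + (V.filter fun v => f v = f (q a)).card) ∧
      (∀ x x' y y' : α, 2 * (V.filter fun v => f v = x).card ≤ s →
        2 * (V.filter fun v => f v = x').card ≤ s → x ≠ x' → y ≠ y' → x ≠ y → x ≠ y' → x' ≠ y →
        x' ≠ y' → ¬ ((∃ a ∈ C, s(f (p a), f (q a)) = s(x, y)) ∧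
          (∃ a ∈ C, s(f (p a), f (q a)) = s(x, y')) ∧ (∃ a ∈ C, s(f (p a), f (q a)) = s(x', y)) ∧
          (∃ a ∈ C, s(f (p a), f (q a)) = s(x', y')))) := by
  sorry

/-- module EX -/
theorem EX {α β : Type} [DecidableEq α] (V : Finset α) (C : Finset β) (p q : β → α)
    (s : ℕ) (hs : 1 ≤ s) (hp : ∀ a ∈ C, p a ∈ V ∧ q a ∈ V ∧ p a ≠ q a)
    (h : ∀ A ⊆ V, A.Nonempty → A.card ≤ 3 * s →
      (C.filter fun a => p a ∈ A ∧ q a ∈ A).card < A.card) :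
    C.card * s ^ 2 ≤ V.card * s ^ 2 + 8 * V.card ^ 2 := by
  sorry

open Classical in
/-- module BP -/
theorem BP {α β : Type} [DecidableEq α] (r : ℕ) (hr : 2 ≤ r) (S : Sys α β) (hG : Good r S) (a : β)
    (ha : a ∈ S.C) :
    ∃ B : Finset (α × α), B.card ≤ 4 ∧ (∀ b ∈ B, b.1 ≠ b.2) ∧
      ∀ W : Finset α, (∀ v ∈ W, ¬ ∃ a' ∈ S.C, IsStar S v a') →
        (∀ b ∈ B, ¬ (b.1 ∈ W ∧ b.2 ∈ W)) → ∃ e ∈ S.E a, ∀ x ∈ e, x ∉ W := by
  sorry

open Classical in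
/-- module ZS -/
theorem ZS (r T : ℕ) (hr : 2 ≤ r) (hT : 1 ≤ T) : ∃ n0 : ℕ, ∀ (α β : Type) [DecidableEq α]
    [DecidableEq β] (S : Sys α β) (ℓ : ℕ), Good r S → Sparse S ℓ → S.V.card ≤ r * ℓ →
    n0 ≤ S.V.card →
    T * (S.V.filter fun v => ¬ ∃ a ∈ S.C, IsStar S v a).card ≤ S.V.card := by
  sorry

/-- module FVa -/
theorem FVa {α : Type} [DecidableEq α] (out : α → Finset α) (P : Finset α) (ℓ q b : ℕ)
    (hq : 1 ≤ q) (h3 : 3 * q ≤ ℓ) (hb : P.card < q * (b + 1))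
    (hc : ∀ A ⊆ P, A.Nonempty → (∀ v ∈ A, ∃ w ∈ out v, w ∈ A) → ℓ < A.card)
    (hne : P.Nonempty) (hout : ∀ v ∈ P, ∃ w ∈ out v, w ∈ P) :
    ∃ X D Y : Finset α, X ∪ D ∪ Y = P ∧ Disjoint X D ∧ Disjoint X Y ∧ Disjoint D Y ∧
      D.card ≤ b ∧ q ≤ X.card ∧ q ≤ Y.card ∧ ∀ v ∈ X, ∀ w ∈ out v, w ∉ Y := by
  sorry

/-- module FVS -/
theorem FVS {α : Type} [DecidableEq α] (out : α → Finset α) (P : Finset α) (ℓ q b : ℕ)
    (hq : 1 ≤ q) (h3 : 3 * q ≤ ℓ) (hb : P.card < q * (b + 1))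
    (hc : ∀ A ⊆ P, A.Nonempty → (∀ v ∈ A, ∃ w ∈ out v, w ∈ A) → ℓ < A.card) :
    ∃ (F : Finset α) (rk : α → ℕ), F ⊆ P ∧ q * F.card ≤ b * P.card ∧
      ∀ v ∈ P, v ∉ F → ∀ w ∈ out v, w ∈ P → w ∉ F → rk v < rk w := by
  sorry

/-- module CO -/
theorem CO (r T : ℕ) (hr : 2 ≤ r) (hT : 1 ≤ T) : ∃ n0 : ℕ, ∀ (α β : Type) [DecidableEq α]
    [DecidableEq β] (S : Sys α β) (ℓ : ℕ), Good r S → Sparse S ℓ → S.V.card ≤ r * ℓ →
    n0 ≤ S.V.card →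
    ∃ (Z : Finset α) (R : Finset β) (st : α → β) (out : α → Finset α) (rk : α → ℕ),
      Core r S Z R st out rk ∧ T * Z.card ≤ S.V.card := by
  sorry

/-! ## Group B: the process -/

/-- module RE: properties of `reach` -/
theorem RE {α : Type} [DecidableEq α] (r : ℕ) (V Z : Finset α) (out : α → Finset α)
    (rk : α → ℕ) (hD : Dag r V Z out rk) :
    (∀ x ∈ V, x ∉ Z → x ∈ reach V Z out x) ∧
    (∀ x ∈ V, ∀ w ∈ reach V Z out x, w ∈ V ∧ w ∉ Z ∧ reach V Z out w ⊆ reach V Z out x) ∧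
    (∀ x ∈ V, ∀ w ∈ reach V Z out x, ∀ z ∈ out w, z ∉ Z → z ∈ reach V Z out x) ∧
    (∀ x ∈ Z, reach V Z out x = ∅) ∧
    (∀ x ∈ V, ∀ w ∈ reach V Z out x, rk x ≤ rk w) ∧
    (∀ x ∈ V, ∀ w ∈ reach V Z out x, ∃ (d : ℕ) (p : ℕ → α), p 0 = x ∧ p d = w ∧
      (∀ i < d, p i ∈ V ∧ p i ∉ Z ∧ p (i + 1) ∈ out (p i) ∧ rk (p i) < rk w ∧
        p i ∈ reach V Z out x ∧ w ∈ reach V Z out (p i)) ∧
      (∀ i < d, ∀ j < d, p i = p j → i = j)) := by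
  sorry

/-- module PRa: the first exit from a set `Q` of non-sinks -/
theorem PRa {α : Type} [DecidableEq α] (r : ℕ) (hr : 1 ≤ r) (V Z : Finset α)
    (out : α → Finset α) (rk : α → ℕ) (hD : Dag r V Z out rk) (Q : Finset α)
    (hQ : ∀ x ∈ Q, x ∈ V ∧ x ∉ Z) (y : α) (hy : y ∈ Q) :
    ∃ (d : ℕ) (p : ℕ → α), 1 ≤ d ∧ p 0 = y ∧ (∀ i < d, p i ∈ Q ∧ p (i + 1) ∈ out (p i)) ∧
      p d ∉ Q ∧ (∀ i < d, ∀ j < d, p i = p j → i = j) ∧ ball out y (d - 1) ⊆ Q := by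
  sorry

/-- module PR: the process lemma -/
theorem PR {α : Type} [DecidableEq α] (r : ℕ) (hr : 1 ≤ r) (V Z : Finset α)
    (out : α → Finset α) (rk : α → ℕ) (hD : Dag r V Z out rk) (X : Finset α) (hX : X ⊆ V)
    (K : ℕ) (hK : 1 ≤ K) :
    ∃ (F Y : Finset α) (d : α → ℕ) (Ec : α → Finset α),
      (∀ x ∈ F, x ∈ V ∧ x ∉ Z) ∧ (∀ x ∈ X, x ∈ F ∨ x ∈ Z) ∧
      (∀ v ∈ F, ∃ w ∈ out v, w ∈ F ∨ w ∈ Z) ∧
      Proc K V Z out Y d Ec ∧
      F.card ≤ ∑ y ∈ Y, d y + 2 * K * (X.filter fun x => x ∉ Z).card := by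
  sorry

/-- module LL: the layer lemma -/
theorem LL {α : Type} [DecidableEq α] (r : ℕ) (V Z : Finset α)
    (out : α → Finset α) (rk : α → ℕ) (hD : Dag r V Z out rk) (y : α) (i : ℕ)
    (hb : ∀ x ∈ ball out y i, x ∈ V ∧ x ∉ Z) :
    r ≤ (lay out y (i + 1)).card ∧
    ((lay out y (i + 1)).card = r → ∀ x ∈ lay out y (i + 1), ∀ w ∈ ball out y i, rk w < rk x) ∧
    r * i + 1 ≤ (ball out y i).card := by
  sorry

/-- module PC -/
theorem PC (r K T : ℕ) (hr : 2 ≤ r) (hK : 1 ≤ K) (hT : 1 ≤ T) : ∃ n0 : ℕ, ∀ (α β : Type)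
    [DecidableEq α] [DecidableEq β] (S : Sys α β) (ℓ : ℕ), Good r S → Sparse S ℓ →
    S.V.card ≤ r * ℓ → n0 ≤ S.V.card →
    ∃ (Z : Finset α) (R : Finset β) (st : α → β) (out : α → Finset α) (rk : α → ℕ)
      (Y : Finset α) (d : α → ℕ) (Ec : α → Finset α),
      Core r S Z R st out rk ∧ T * Z.card ≤ S.V.card ∧ Proc K S.V Z out Y d Ec ∧
      ℓ + 1 ≤ ∑ y ∈ Y, d y + (4 * K + 1) * Z.card := by
  sorry

/-- module AT: the asymptotic theorem -/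
theorem AT (r D : ℕ) (hr : 2 ≤ r) (hD : 1 ≤ D) : ∃ n0 : ℕ, ∀ (α β : Type)
    [DecidableEq α] [DecidableEq β] (S : Sys α β) (ℓ : ℕ), Good r S → Sparse S ℓ →
    n0 ≤ S.V.card → r * D * ℓ < (D + r) * S.V.card := by
  sorry

/-! ## Group C: the strand -/

/-- module RUN -/
theorem RUN (M d : ℕ) (Mk : Finset ℕ) (h : ∀ a, a + M < d → ∃ j ≤ M, a + j ∈ Mk) :
    d ≤ (M + 1) * (Mk.card + 1) := by
  sorry

/-- module SMc: counting -/
theorem SMc {α β : Type} [DecidableEq α] [DecidableEq β] (r M K : ℕ) (hr : 2 ≤ r)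
    (hK : K = 100 * r ^ 4 * (M + 1))
    (S : Sys α β) (ℓ : ℕ) (hG : Good r S) (hℓ : S.V.card ≤ r * ℓ)
    (Z : Finset α) (R : Finset β) (st : α → β) (out : α → Finset α) (rk : α → ℕ)
    (Y : Finset α) (d : α → ℕ) (Ec : α → Finset α)
    (hC : Core r S Z R st out rk) (hT : K * (4 * K + 1) * Z.card ≤ S.V.card)
    (hP : Proc K S.V Z out Y d Ec)
    (hd : ℓ + 1 ≤ ∑ y ∈ Y, d y + (4 * K + 1) * Z.card) :
    ∃ y ∈ Y, ∃ a, 1 ≤ a ∧ a + M + 2 ≤ d y ∧ ∀ j ≤ M, (lay out y (a + j)).card = r ∧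
      ∀ x ∈ lay out y (a + j), (∀ b ∈ R, ∀ e ∈ S.E b, x ∉ e) ∧
        ∀ z ∈ S.V, z ∉ Z → ¬ Internal r out Y d z → x ∉ out z := by
  sorry

/-- module SMs: structure -/
theorem SMs {α β : Type} [DecidableEq α] [DecidableEq β] (r M K : ℕ) (hr : 2 ≤ r)
    (S : Sys α β) (hG : Good r S)
    (Z : Finset α) (R : Finset β) (st : α → β) (out : α → Finset α) (rk : α → ℕ)
    (Y : Finset α) (d : α → ℕ) (Ec : α → Finset α)
    (hC : Core r S Z R st out rk) (hP : Proc K S.V Z out Y d Ec)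
    (y : α) (hy : y ∈ Y) (a : ℕ) (ha : 1 ≤ a) (had : a + M + 2 ≤ d y)
    (h : ∀ j ≤ M, (lay out y (a + j)).card = r ∧
      ∀ x ∈ lay out y (a + j), (∀ b ∈ R, ∀ e ∈ S.E b, x ∉ e) ∧
        ∀ z ∈ S.V, z ∉ Z → ¬ Internal r out Y d z → x ∉ out z) :
    ∃ (v : ℕ → ℕ → α) (c : ℕ → ℕ → β) (N : ℕ → ℕ → Finset α), Lay r M S v c N := by
  sorry

/-- module SM -/
theorem SM (r M : ℕ) (hr : 2 ≤ r) : ∃ n0 : ℕ, ∀ (α β : Type)
    [DecidableEq α] [DecidableEq β] (S : Sys α β) (ℓ : ℕ), CE r S ℓ → n0 ≤ S.V.card →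
    ∃ (v : ℕ → ℕ → α) (c : ℕ → ℕ → β) (N : ℕ → ℕ → Finset α), Lay r M S v c N := by
  sorry

/-! ## Group D: perfecting a strand -/

/-- module PA -/
theorem PA {α β : Type} [DecidableEq α] [DecidableEq β] (r M p q : ℕ) (hr : 2 ≤ r)
    (hq : q ≤ M) (S : Sys α β) (v : ℕ → ℕ → α) (c : ℕ → ℕ → β) (N : ℕ → ℕ → Finset α)
    (hL : Lay r M S v c N) (hG : Good r S) :
    ∃ S' : Sys α β, IsMod r p q S S' v c ∧ Good r S' ∧
      Lay r M S' v c (fun j i => if p ≤ j ∧ j < q then PN r v j i else N j i) := by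
  sorry

/-- module PB -/
theorem PB {α β : Type} [DecidableEq α] [DecidableEq β] (r M p q : ℕ) (hr : 2 ≤ r)
    (hp : 1 ≤ p) (hpq : p ≤ q) (hq : q ≤ M) (S S' : Sys α β) (v : ℕ → ℕ → α) (c : ℕ → ℕ → β)
    (N : ℕ → ℕ → Finset α) (hL : Lay r M S v c N) (hM : IsMod r p q S S' v c)
    (hL' : Lay r M S' v c (fun j i => if p ≤ j ∧ j < q then PN r v j i else N j i)) :
    Perf r (r * (q - p)) S' (fun j => v (p + j / r) (j % r)) (fun j => c (p + j / r) (j % r)) := by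
  sorry

/-- module RQ -/
theorem RQ {α β : Type} [DecidableEq α] [DecidableEq β] (r M p N0 : ℕ) (hr : 2 ≤ r)
    (hM : p + N0 + r ^ 2 + 2 ≤ M) (S : Sys α β) (v : ℕ → ℕ → α) (c : ℕ → ℕ → β)
    (N : ℕ → ℕ → Finset α) (hL : Lay r M S v c N) :
    ∃ q, p + N0 < q ∧ q < M ∧ RR r p q v N := by
  sorry

/-- module PDr: replacement lemma -/
theorem PDr {α β : Type} [DecidableEq α] [DecidableEq β] (r M p q j : ℕ) (hr : 2 ≤ r)
    (hjp : j ≤ p) (hpq : p < q) (hq : q < M) (S S' : Sys α β) (v : ℕ → ℕ → α) (c : ℕ → ℕ → β)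
    (N : ℕ → ℕ → Finset α) (hL : Lay r M S v c N) (hM : IsMod r p q S S' v c)
    (hL' : Lay r M S' v c (fun j i => if p ≤ j ∧ j < q then PN r v j i else N j i))
    (B' : Finset α) (hB' : B' ⊆ S.V) (hv : B'.card ≤ (col S' B').card)
    (W : Finset α) (hW : W ⊆ segm r v j q) (hWj : ∀ i < r, v j i ∈ B' → v j i ∈ W)
    (dW : Finset α) (hdW : dW ⊆ W)
    (hal : ∀ j' i', j ≤ j' → j' < q → i' < r → v j' i' ∈ W → v j' i' ∉ dW →
      ∃ w ∈ N j' i', w ∈ W ∨ (∃ i'' < r, w = v q i'' ∧ w ∈ B'))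
    (dB : Finset α) (hdB : dB ⊆ B') (hdB' : dB ⊆ segm r v j q)
    (hdead : ∀ j' i', j ≤ j' → j' < q → i' < r → v j' i' ∈ dB →
      ∀ w ∈ (if p ≤ j' ∧ j' < q then PN r v j' i' else N j' i'), w ∉ B')
    (hdd : dW.card ≤ dB.card) :
    ((B' \ segm r v j q) ∪ W).card ≤ (col S ((B' \ segm r v j q) ∪ W)).card ∧
    ((B' \ segm r v j q) ∪ W).card + (B' ∩ segm r v j q).card = B'.card + W.card := by
  sorry

/-- module PDs: the spine -/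
theorem PDs {α β : Type} [DecidableEq α] [DecidableEq β] (r M k : ℕ) (hr : 2 ≤ r)
    (hk : r ≤ k) (hkM : k ≤ M) (S : Sys α β) (v : ℕ → ℕ → α) (c : ℕ → ℕ → β)
    (N : ℕ → ℕ → Finset α) (hL : Lay r M S v c N) (A : Finset ℕ) (hA : A ⊆ Finset.range r) :
    ∃ W : Finset α, W ⊆ segm r v 0 k ∧ (∀ i ∈ A, v 0 i ∈ W) ∧ W.card ≤ r * (r - 1) + k ∧
      ∀ j' i', j' < k → i' < r → v j' i' ∈ W → v j' i' ≠ v (k - 1) (r - 1) →
        ∃ w ∈ N j' i', w ∈ W := by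
  sorry

/-- module PDe: empty layers of a minimal violating set -/
theorem PDe {α β : Type} [DecidableEq α] [DecidableEq β] (r M : ℕ) (hr : 2 ≤ r)
    (S : Sys α β) (v : ℕ → ℕ → α) (c : ℕ → ℕ → β)
    (N : ℕ → ℕ → Finset α) (hL : Lay r M S v c N) (B : Finset α) (hB : MinV S B) :
    (∀ j < M, (∀ i < r, v j i ∉ B) → ∀ j', j < j' → j' < M → ∀ i < r, v j' i ∉ B) ∧
    (∀ j, j + 1 < M → (∀ i < r, v (j + 1) i ∉ B) → (∃ i < r, v j i ∈ B) →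
      ∀ a < j, 2 ≤ ((Finset.range r).filter fun i => v a i ∈ B).card) := by
  sorry

/-- module PDm: existence of minimal violating sets -/
theorem PDm {α β : Type} [DecidableEq α] (S : Sys α β) (B : Finset α) (hB : B ⊆ S.V)
    (hne : B.Nonempty) (hv : B.card ≤ (col S B).card) :
    ∃ B' ⊆ B, MinV S B' := by
  sorry

/-- module PD: conversion -/
theorem PD {α β : Type} [DecidableEq α] [DecidableEq β] (r M p q ℓ : ℕ) (hr : 2 ≤ r)
    (hp : r ^ 2 + r + 1 ≤ p) (hpq : p < q) (hq : q < M) (S S' : Sys α β) (v : ℕ → ℕ → α)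
    (c : ℕ → ℕ → β) (N : ℕ → ℕ → Finset α) (hL : Lay r M S v c N) (hM : IsMod r p q S S' v c)
    (hL' : Lay r M S' v c (fun j i => if p ≤ j ∧ j < q then PN r v j i else N j i))
    (hR : RR r p q v N) (hS : Sparse S ℓ) : Sparse S' ℓ := by
  sorry

/-! ## Group E: cutting a perfect strand, reduction -/

/-- module ELc: chain lemma -/
theorem ELc (r N : ℕ) (S Y : Finset ℕ) (hS : S ⊆ Finset.range N)
    (h : ∀ x ∈ S, ∃ t, 1 ≤ t ∧ t ≤ r ∧ (x + t ∈ S ∨ (N ≤ x + t ∧ x + t - N ∈ Y))) :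
    ∀ x ∈ S, ∃ τ ∈ Y, τ < r ∧ N + τ ≤ x + r * (S.filter fun z => x ≤ z).card := by
  sorry

/-- module ELp: path lemma -/
theorem ELp (r N x τ : ℕ) (hr : 1 ≤ r) (hN : r < N) (hx : x < r) (hτ : τ < r) :
    ∃ W : Finset ℕ, W ⊆ Finset.Ico r N ∧ r * W.card + x < N + τ ∧
      ∀ z ∈ insert x W, ∃ t, 1 ≤ t ∧ t ≤ r ∧ (z + t ∈ W ∨ z + t = N + τ) := by
  sorry

/-- module ELa: the cut system -/
theorem ELa {α β : Type} [DecidableEq α] [DecidableEq β] (r N m : ℕ) (hr : 2 ≤ r)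
    (hN : r + r * m ≤ N) (S : Sys α β) (u : ℕ → α) (c : ℕ → β) (hG : Good r S)
    (hP : Perf r N S u c) :
    ∃ S' : Sys α β, IsCut r N m S S' u c ∧ Good r S' ∧
      Perf r (N - r * m) S' (cutu r N m u) c ∧ S'.V.card + r * m = S.V.card := by
  sorry

/-- module EL -/
theorem EL {α β : Type} [DecidableEq α] [DecidableEq β] (r N m ℓ : ℕ) (hr : 2 ≤ r)
    (hm : 1 ≤ m) (hN : r + r * m ≤ N) (S S' : Sys α β) (u : ℕ → α) (c : ℕ → β) (hG : Good r S)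
    (hP : Perf r N S u c) (hC : IsCut r N m S S' u c) (hS : Sparse S ℓ) :
    Sparse S' (ℓ - m) := by
  sorry

/-- module PS -/
theorem PS {α β : Type} [DecidableEq α] [DecidableEq β] (r N a N' : ℕ) (S : Sys α β)
    (u : ℕ → α) (c : ℕ → β) (hP : Perf r N S u c) (ha : a + N' ≤ N) :
    Perf r N' S (fun j => u (a + j)) (fun j => c (a + j)) := by
  sorry

/-- module RDa -/
theorem RDa {α : Type} [DecidableEq α] (r M M1 : ℕ) (v : ℕ → ℕ → α) (X : Finset α)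
    (hX : X.card ≤ 3 * r) (hM1 : (3 * r + 1) * (M + 1) ≤ M1 + 1)
    (hv : ∀ j ≤ M1, ∀ i < r, ∀ j' ≤ M1, ∀ i' < r, v j i = v j' i' → j = j' ∧ i = i') :
    ∃ a, a + M ≤ M1 ∧ ∀ j ≤ M, ∀ i < r, v (a + j) i ∉ X := by
  sorry

/-- module RD1: one reduction step -/
theorem RD1 (r : ℕ) (hr : 2 ≤ r) : ∃ n1 : ℕ, ∀ (N0 : ℕ), 3 ≤ N0 → ∀ (α β : Type)
    [DecidableEq α] [DecidableEq β] (S : Sys α β) (ℓ : ℕ) (u : ℕ → α) (c : ℕ → β),
    CE r S ℓ → Perf r (r * N0) S u c → r * N0 + n1 ≤ S.V.card →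
    ∃ (S' : Sys α β) (ℓ' : ℕ), CE r S' ℓ' ∧ Perf r (r * N0) S' u c ∧
      S'.V.card < S.V.card := by
  sorry

/-- module RD -/
theorem RD (r : ℕ) (hr : 2 ≤ r) : ∃ n1 : ℕ, ∀ (N0 : ℕ), 3 ≤ N0 → ∀ (α β : Type)
    [DecidableEq α] [DecidableEq β] (S : Sys α β) (ℓ : ℕ) (u : ℕ → α) (c : ℕ → β),
    CE r S ℓ → Perf r (r * N0) S u c →
    ∃ (S' : Sys α β) (ℓ' : ℕ), CE r S' ℓ' ∧ Perf r (r * N0) S' u c ∧
      S'.V.card < r * N0 + n1 := by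
  sorry

/-! ## Group F: the cyclic cover -/

/-- module CVa: existence of the cover -/
theorem CVa {α β : Type} [DecidableEq α] [DecidableEq β] (r N k : ℕ) [NeZero k] (hr : 2 ≤ r)
    (S : Sys α β) (u : ℕ → α) (c : ℕ → β) (hG : Good r S) (hP : Perf r N S u c) :
    ∃ S' : Sys (α × ZMod k) (β × ZMod k), IsCover r N k S S' u c ∧ Good r S' ∧
      S'.V.card = k * S.V.card := by
  sorry

/-- module CVh: in the base, a small set of vertices outside of the strand and of the first `r`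
strand vertices contains at most as many non-strand colours as non-strand vertices -/
theorem CVh {α β : Type} [DecidableEq α] [DecidableEq β] (r N ℓ : ℕ) (hr : 2 ≤ r) (hN : r < N)
    (S : Sys α β) (u : ℕ → α) (c : ℕ → β) (hG : Good r S) (hP : Perf r N S u c)
    (hS : Sparse S ℓ) (hℓ : S.V.card + r ≤ N + ℓ)
    (H : Finset α) (hH : H ⊆ S.V) (hHu : ∀ j < N, u j ∉ H) (J : Finset ℕ)
    (hJ : J ⊆ Finset.range N) (F : Finset β)
    (hF : ∀ a ∈ F, a ∈ S.C ∧ (∀ j < N, a ≠ c j) ∧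
      ∃ e ∈ S.E a, ∀ x ∈ e, x ∈ H ∨ ∃ j ∈ J, x = u j) :
    F.card ≤ H.card ∧ (F.card = H.card → H.Nonempty → ∃ x ∈ J, x < r) := by
  sorry

/-- module CVl: the inequality of one level -/
theorem CVl {α β : Type} [DecidableEq α] [DecidableEq β] (r N ℓ : ℕ) (hr : 2 ≤ r) (hN : r < N)
    (S : Sys α β) (u : ℕ → α) (c : ℕ → β) (hG : Good r S) (hP : Perf r N S u c)
    (hS : Sparse S ℓ) (H : Finset α) (hH : H ⊆ S.V) (hHu : ∀ j < N, u j ∉ H) (J Y' : Finset ℕ)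
    (hJ : J ⊆ Finset.range N) (hJr : ∃ x ∈ J, x < r) (F : Finset β)
    (hF : ∀ a ∈ F, a ∈ S.C ∧ (∀ j < N, a ≠ c j) ∧
      ∃ e ∈ S.E a, ∀ x ∈ e, x ∈ H ∨ ∃ j ∈ J, x = u j)
    (hFH : F.card = H.card)
    (hJa : ∀ x ∈ J, ∃ t, 1 ≤ t ∧ t ≤ r ∧ (x + t ∈ J ∨ (N ≤ x + t ∧ x + t - N ∈ Y'))) :
    ∃ τ' ∈ Y', τ' < r ∧ ∀ τ < r, u (N + τ) ∈ H →
      r * ℓ + 1 + τ' ≤ r * (H.card + J.card) + τ := by
  sorry

/-- module CV: the cover is sparse -/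
theorem CV {α β : Type} [DecidableEq α] [DecidableEq β] (r N k ℓ m : ℕ) [NeZero k] (hr : 2 ≤ r)
    (hN : r < N) (S : Sys α β) (u : ℕ → α) (c : ℕ → β) (hG : Good r S) (hP : Perf r N S u c)
    (hS : Sparse S ℓ) (hℓ : S.V.card + r ≤ N + ℓ)
    (S' : Sys (α × ZMod k) (β × ZMod k)) (hC : IsCover r N k S S' u c)
    (hm : r * m < k * (r * ℓ + 1)) : Sparse S' m := by
  sorry

/-! ## Group G: translation and assembly -/

/-- module TRc: many edges give a cycle -/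
theorem TRc {V : Type} [Fintype V] [DecidableEq V] (A : Finset V) (F : Finset (Sym2 V))
    (hF : ∀ e ∈ F, ¬ e.IsDiag ∧ ∀ x ∈ e, x ∈ A) (hA : A.Nonempty) (hc : A.card ≤ F.card) :
    ∃ (v : V) (p : (SimpleGraph.fromEdgeSet (F : Set (Sym2 V))).Walk v v),
      p.IsCycle ∧ p.length ≤ A.card := by
  sorry

/-- module TR -/
theorem TR (r n : ℕ) (G : SimpleGraph (Fin n)) (c : Sym2 (Fin n) → Fin n)
    (h : ∀ a, r ≤ {e | e ∈ G.edgeSet ∧ c e = a}.ncard) (ℓ : ℕ)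
    (hno : ¬ ∃ (v : Fin n) (p : G.Walk v v), p.IsCycle ∧ (p.edges.map c).Nodup ∧ p.length ≤ ℓ) :
    ∃ S : Sys (Fin n) (Fin n), Good r S ∧ Sparse S ℓ ∧ S.V.card = n := by
  sorry

/-- assembly of groups A-F -/
theorem MAIN (r : ℕ) (hr : 2 ≤ r) : ∃ n0 : ℕ, ∀ (α β : Type) [DecidableEq α] [DecidableEq β]
    (S : Sys α β) (ℓ : ℕ), n0 ≤ S.V.card → ¬ CE r S ℓ := by
  obtain ⟨n1, hRD⟩ := RD r hr
  set N0 : ℕ := n1 + r + 3 with hN0
  set M : ℕ := (r ^ 2 + r + 1) + N0 + r ^ 2 + 2 with hM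
  obtain ⟨n0, hSM⟩ := SM r M hr
  refine ⟨n0, ?_⟩
  intro α β _ _ S ℓ hn hCE
  obtain ⟨v, c, N, hL⟩ := hSM α β S ℓ hCE hn
  obtain ⟨q, hq1, hq2, hR⟩ := RQ r M (r ^ 2 + r + 1) N0 hr (le_of_eq rfl) S v c N hL
  obtain ⟨S', hM', hG', hL'⟩ := PA r M (r ^ 2 + r + 1) q hr hq2.le S v c N hL hCE.1
  have hS' : Sparse S' ℓ := PD r M (r ^ 2 + r + 1) q ℓ hr le_rfl (by omega) hq2 S S' v c N hL hM' hL'
    hR hCE.2.1
  have hCE' : CE r S' ℓ := ⟨hG', hS', by rw [hM'.V_eq]; exact hCE.2.2⟩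
  have hP := PB r M (r ^ 2 + r + 1) q hr (by omega) (by omega) hq2.le S S' v c N hL hM' hL'
  have hqp : N0 ≤ q - (r ^ 2 + r + 1) := by omega
  have hP' := PS r _ 0 (r * N0) S' _ _ hP (by rw [Nat.zero_add]; exact Nat.mul_le_mul_left _ hqp)
  obtain ⟨S2, ℓ2, hCE2, hP2, hlt⟩ := hRD N0 (by omega) α β S' ℓ _ _ hCE' hP'
  -- the cover
  have hN0r : r < r * N0 := by
    have : 3 ≤ N0 := by omega
    nlinarith
  have hVge : r * N0 + r ≤ S2.V.card := by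
    have hinj : Set.InjOn (fun j => (fun j => (fun j => v (r ^ 2 + r + 1 + j / r) (j % r)) (0 + j)) j)
        (Finset.range (r * N0 + r) : Set ℕ) := by
      intro a ha b hb hab
      exact hP2.u_inj a (by simpa using ha) b (by simpa using hb) hab
    have h1 := Finset.card_image_of_injOn hinj
    rw [Finset.card_range] at h1
    rw [← h1]
    apply Finset.card_le_card
    intro x hx
    obtain ⟨j, hj, rfl⟩ := Finset.mem_image.mp hx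
    exact hP2.u_mem j (by simpa using hj)
  have hℓ2 : S2.V.card + r ≤ r * N0 + ℓ2 := by
    have h1 : r * N0 + r ≤ r * ℓ2 := hVge.trans hCE2.2.2
    have h2 : N0 + 1 ≤ ℓ2 := by
      have : r * (N0 + 1) ≤ r * ℓ2 := by rw [Nat.mul_add, Nat.mul_one]; exact h1
      exact Nat.le_of_mul_le_mul_left this (by omega)
    omega
  set n := S2.V.card with hn2
  have hnpos : 1 ≤ n := by omega
  obtain ⟨nA, hAT⟩ := AT r (2 * r * n) hr (Nat.mul_pos (by omega) (by omega))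
  set k := 2 * r + nA with hk
  have : NeZero k := ⟨by omega⟩
  obtain ⟨S3, hCov, hG3, hc3⟩ := CVa r (r * N0) k hr S2 _ _ hCE2.1 hP2
  set m := (k * (r * ℓ2 + 1) - 1) / r with hmdef
  have hm1 : r * m < k * (r * ℓ2 + 1) := by
    have h1 : r * m ≤ k * (r * ℓ2 + 1) - 1 := Nat.mul_div_le _ _
    have h2 : 1 ≤ k * (r * ℓ2 + 1) := Nat.mul_pos (by omega) (by omega)
    omega
  have hm2 : k * (r * ℓ2 + 1) ≤ r * m + r := by
    have h1 : k * (r * ℓ2 + 1) - 1 < r * (m + 1) := by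
      rw [hmdef]
      exact Nat.lt_mul_div_succ _ (by omega)
    have h2 : r * (m + 1) = r * m + r := by ring
    omega
  have hSp := CV r (r * N0) k ℓ2 m hr hN0r S2 _ _ hCE2.1 hP2 hCE2.2.1 hℓ2 S3 hCov hm1
  have hAT' := hAT _ _ S3 m hG3 hSp (by
    rw [hc3]
    have : nA ≤ k := by omega
    nlinarith)
  rw [hc3] at hAT'
  -- numbers
  have hr2 : n ≤ r * ℓ2 := hCE2.2.2
  have h5 : k * (n + 1) ≤ r * m + r := by
    refine le_trans ?_ hm2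
    exact Nat.mul_le_mul_left _ (by omega)
  have h6 : 2 * r * n * (k * (n + 1)) ≤ 2 * r * n * (r * m + r) := Nat.mul_le_mul_left _ h5
  have h7 : r * (2 * r * n) * m < (2 * r * n + r) * (k * n) := hAT'
  have h8 : r * n * k < r * n * (2 * r) := by nlinarith
  have h9 : k < 2 * r := lt_of_mul_lt_mul_left h8 (Nat.zero_le _)
  omega

end Pool.Agent.helper19.AR
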